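import Pool.Agent.BWG.Wang
import Pool.Agent.BWG.A2
import Pool.Agent.BWG.A3
import Pool.Agent.BWG.NrdG

/-!
# The reduced norm of an Azumaya algebra over `ℤ[1/N]` (project BWG2, row N)
-/

set_option autoImplicit false

namespace BWG
namespace Nrd

open scoped TensorProduct
open Polynomial Matrix BW

/-! ### splitting over an algebraically closed field -/

/-- a field tensored with a central simple algebra is simple -/
theorem simple_tensor_csa {F K A : Type*} [Field F] [Field K] [Algebra F K] [Ring A] [Algebra F A]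
    [IsSimpleRing A] [Algebra.IsCentral F A] [Module.Finite F A] : IsSimpleRing (K ⊗[F] A) := by
  have hart : IsArtinianRing A := IsArtinianRing.of_finite F A
  obtain ⟨n, hn, D, _, _, _, ⟨e⟩⟩ := IsSimpleRing.exists_algEquiv_matrix_divisionRing_finite F A
  have hc : Algebra.IsCentral F D := by
    refine ⟨fun x hx => ?_⟩
    rw [Subalgebra.mem_center_iff] at hx
    have h1 : e.symm (Matrix.scalar (Fin n) x) ∈ Subalgebra.center F A := by
      rw [Subalgebra.mem_center_iff]
      intro b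
      apply e.injective
      rw [map_mul, map_mul, e.apply_symm_apply]
      ext i j
      rw [Matrix.scalar_apply, Matrix.mul_diagonal, Matrix.diagonal_mul]
      exact hx _
    have h2 := (Algebra.IsCentral.out (K := F) (D := A)) h1
    rw [Algebra.mem_bot] at h2 ⊢
    obtain ⟨c, hc⟩ := h2
    refine ⟨c, ?_⟩
    have h3 := congrArg e hc
    rw [e.commutes, e.apply_symm_apply] at h3
    have h4 := congrArg (fun M : Matrix (Fin n) (Fin n) D => M 0 0) h3
    simpa [Matrix.algebraMap_matrix_apply] using h4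
  have : IsSimpleRing (K ⊗[F] D) := Wang.simple_tensor
  let e1 : A ≃ₐ[F] Matrix (Fin n) (Fin n) D := e
  let e2 : K ≃ₐ[F] Matrix (Fin 1) (Fin 1) K :=
    { toFun := fun x => Matrix.of fun _ _ => x
      invFun := fun M => M 0 0
      left_inv := fun _ => rfl
      right_inv := fun M => by
        ext i j
        rw [Subsingleton.elim i 0, Subsingleton.elim j 0]
        rfl
      map_mul' := fun x y => by
        ext i j
        rw [Matrix.mul_apply, Fin.sum_univ_one]
        rfl
      map_add' := fun _ _ => rfl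
      commutes' := fun c => by
        ext i j
        rw [Subsingleton.elim i 0, Subsingleton.elim j 0, Matrix.algebraMap_matrix_apply, if_pos rfl]
        rfl }
  let e3 := Algebra.TensorProduct.congr e2 e1
  let e4 := kroneckerTMulAlgEquiv (Fin 1) (Fin n) F F K D
  have h5 : IsSimpleRing (Matrix (Fin 1 × Fin n) (Fin 1 × Fin n) (K ⊗[F] D)) := inferInstance
  exact IsSimpleRing.of_ringEquiv ((e3.trans e4).symm.toRingEquiv) h5

/-! ### characteristic polynomials of left multiplications -/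

section charp

variable {m : Type*} [Fintype m] [DecidableEq m]

theorem charpoly_blockDiagonal {F k : Type*} [CommRing F] [Fintype k] [DecidableEq k]
    (M : Matrix m m F) :
    (Matrix.blockDiagonal fun _ : k => M).charpoly = M.charpoly ^ Fintype.card k := by
  have h : (Matrix.blockDiagonal fun _ : k => M).charmatrix =
      Matrix.blockDiagonal fun _ : k => M.charmatrix := by
    ext ⟨a, r⟩ ⟨b, s⟩ : 1
    rw [Matrix.blockDiagonal_apply, Matrix.charmatrix_apply, Matrix.blockDiagonal_apply,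
      Matrix.charmatrix_apply, Matrix.diagonal_apply, Matrix.diagonal_apply]
    by_cases hrs : r = s
    · subst hrs
      by_cases hab : a = b
      · subst hab
        simp
      · simp [hab]
    · have : ¬ ((a, r) = (b, s)) := fun h => hrs (Prod.mk.inj h).2
      simp [hrs]
  rw [Matrix.charpoly, h, Matrix.det_blockDiagonal, Finset.prod_const, Finset.card_univ,
    Matrix.charpoly]

theorem charpoly_lmul_matrix {F : Type*} [CommRing F] {d : ℕ}
    (X : Matrix m m (Matrix (Fin d) (Fin d) F)) :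
    (lmul F X).charpoly = (Matrix.compRingEquiv m (Fin d) F X).charpoly ^ d := by
  classical
  let e : (m → Matrix (Fin d) (Fin d) F) ≃ₗ[F] ((m × Fin d) × Fin d → F) :=
    { toFun := fun v q => v q.1.1 q.1.2 q.2
      invFun := fun w a => Matrix.of fun r s => w ((a, r), s)
      left_inv := fun v => rfl
      right_inv := fun w => rfl
      map_add' := fun v w => rfl
      map_smul' := fun c v => rfl }
  rw [← LinearEquiv.charpoly_conj e (lmul F X)]
  have h : e.conj (lmul F X) =
      Matrix.toLin' (Matrix.blockDiagonal fun _ : Fin d => Matrix.compRingEquiv m (Fin d) F X) := by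
    apply LinearMap.ext
    intro w
    funext q
    obtain ⟨⟨a, r⟩, s⟩ := q
    rw [Matrix.toLin'_apply]
    change (X *ᵥ fun b => Matrix.of fun r s => w ((b, r), s)) a r s = _
    rw [Matrix.mulVec, dotProduct, Matrix.mulVec, dotProduct, Matrix.sum_apply,
      Fintype.sum_prod_type, Fintype.sum_prod_type]
    refine Finset.sum_congr rfl fun b _ => ?_
    rw [Matrix.mul_apply]
    refine Finset.sum_congr rfl fun t _ => ?_
    rw [Finset.sum_eq_single s]
    · rw [Matrix.blockDiagonal_apply, if_pos rfl]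
      rfl
    · intro u _ hu
      rw [Matrix.blockDiagonal_apply, if_neg (Ne.symm hu), zero_mul]
    · intro h
      exact absurd (Finset.mem_univ _) h
  rw [h, Matrix.charpoly_toLin', charpoly_blockDiagonal, Fintype.card_fin]

variable {S S' M M' ι : Type*} [CommRing S] [CommRing S'] [Ring M] [Ring M'] [Algebra S M]
  [Algebra S' M'] [Fintype ι] [DecidableEq ι]

theorem lmul_toMatrix' (e : Module.Basis ι S M) (X : Matrix m m M) (i j : m) (a b : ι) :
    LinearMap.toMatrix (Pi.basis fun _ : m => e) (Pi.basis fun _ : m => e) (lmul S X) ⟨i, a⟩ ⟨j, b⟩ =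
      e.repr (X i j * e b) a := by
  rw [LinearMap.toMatrix_apply, Pi.basis_apply, Pi.basis_repr]
  congr 2
  change (X *ᵥ Pi.single j (e b)) i = _
  rw [Matrix.mulVec_single]
  simp

/-- base change of the characteristic polynomial -/
theorem charpoly_lmul_map [Nontrivial S] [Nontrivial S'] [Module.Free S M] [Module.Finite S M]
    [Module.Free S' M'] [Module.Finite S' M'] (ψ : S →+* S') (ρ : M →+* M')
    (b : Module.Basis ι S M) (b' : Module.Basis ι S' M') (hb : ∀ i, b' i = ρ (b i))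
    (hs : ∀ r x, ρ (r • x) = ψ r • ρ x) (X : Matrix m m M) :
    (lmul S X).charpoly.map ψ = (lmul S' (X.map ρ)).charpoly := by
  have hr : ∀ x i, b'.repr (ρ x) i = ψ (b.repr x i) := by
    intro x i
    conv_lhs => rw [← b.sum_repr x]
    rw [map_sum]
    simp only [hs, ← hb, map_sum, map_smul, Module.Basis.repr_self]
    simp [Finsupp.single_apply]
  rw [← LinearMap.charpoly_toMatrix (lmul S X) (Pi.basis fun _ : m => b),
    ← LinearMap.charpoly_toMatrix (lmul S' (X.map ρ)) (Pi.basis fun _ : m => b'),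
    ← Matrix.charpoly_map]
  congr 1
  ext ⟨i, a⟩ ⟨j, c⟩
  rw [lmul_toMatrix', Matrix.map_apply, lmul_toMatrix', hb, Matrix.map_apply, ← map_mul, hr]

end charp

/-! ### powers of monic polynomials -/

theorem monic_eq_of_pow_eq {F : Type*} [Field F] {a b : F[X]} (ha : a.Monic) (hb : b.Monic) {n : ℕ}
    (hn : n ≠ 0) (h : a ^ n = b ^ n) : a = b := by
  have h1 : a ∣ b := (IsIntegrallyClosed.pow_dvd_pow_iff hn).1 (dvd_of_eq h)
  have h2 : b ∣ a := (IsIntegrallyClosed.pow_dvd_pow_iff hn).1 (dvd_of_eq h.symm)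
  exact eq_of_monic_of_associated ha hb (associated_of_dvd_dvd h1 h2)

/-- the algebraic closure of the rationals, for the canonical algebra structure -/
theorem isAlgClosure_rat : IsAlgClosure ℚ (AlgebraicClosure ℚ) := by
  have e : (AlgebraicClosure.instAlgebra ℚ : Algebra ℚ (AlgebraicClosure ℚ)) =
      DivisionRing.toRatAlgebra := Subsingleton.elim _ _
  have h : @Algebra.IsAlgebraic ℚ (AlgebraicClosure ℚ) _ _ (AlgebraicClosure.instAlgebra ℚ) :=
    inferInstance
  rw [e] at h
  exact ⟨inferInstance, h⟩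

/-! ### the splitting of an Azumaya algebra -/

section split

variable {d N : ℕ} {R Λ : Type} [CommRing R] [Ring Λ] [Algebra R Λ]

omit [Ring Λ] [Algebra R Λ] in
/-- ring homomorphisms out of `ℤ[1/N]` are determined -/
theorem hom_ext {S : Type*} [Ring S] [IsLocalization.Away (N : ℤ) R] (f g : R →+* S) : f = g :=
  IsLocalization.ringHom_ext (Submonoid.powers (N : ℤ)) (RingHom.ext_int _ _)

theorem map_smul_of {S M : Type*} [CommRing S] [Ring M] [Algebra S M] (N : ℕ)
    [IsLocalization.Away (N : ℤ) R] (κ : R →+* S) (ψ : Λ →+* M) (r : R) (x : Λ) :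
    ψ (r • x) = κ r • ψ x := by
  have h : ψ.comp (algebraMap R Λ) = (algebraMap S M).comp κ := hom_ext (N := N) _ _
  rw [Algebra.smul_def, map_mul, Algebra.smul_def]
  congr 1
  exact RingHom.congr_fun h r

theorem exists_splitting (hN : N ≠ 0) (hd : d ≠ 0) [IsLocalization.Away (N : ℤ) R]
    (h : IsAzumaya d N R Λ) (b : Module.Basis (Fin (d ^ 2)) R Λ) :
    ∃ (ψ : Λ →+* Matrix (Fin d) (Fin d) (AlgebraicClosure ℚ))
      (b' : Module.Basis (Fin (d ^ 2)) (AlgebraicClosure ℚ)
        (Matrix (Fin d) (Fin d) (AlgebraicClosure ℚ))), ∀ i, b' i = ψ (b i) := by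
  have i1 := isSimpleRing_generic hN hd h
  have i2 := isCentral_generic hN hd h
  have i3 := finite_generic hN hd h
  have i4 := finrank_generic hN hd h
  obtain ⟨E, hE⟩ := exists_basisQ hN hd h b
  have i5 : IsSimpleRing (AlgebraicClosure ℚ ⊗[ℚ] (ℚ ⊗[ℤ] Λ)) := simple_tensor_csa
  obtain ⟨n, hn, ⟨ε⟩⟩ := IsSimpleRing.exists_algEquiv_matrix_of_isAlgClosed (AlgebraicClosure ℚ)
    (AlgebraicClosure ℚ ⊗[ℚ] (ℚ ⊗[ℤ] Λ))
  have h1 : n = d := by
    have h2 := ε.toLinearEquiv.finrank_eq
    rw [Module.finrank_baseChange, i4, Module.finrank_matrix, Fintype.card_fin,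
      Module.finrank_self, mul_one] at h2
    have h3 : n ^ 2 = d ^ 2 := by rw [h2, pow_two]
    exact Nat.pow_left_injective two_ne_zero h3
  subst h1
  refine ⟨(ε.toAlgHom.toRingHom).comp ((Algebra.TensorProduct.includeRight :
    (ℚ ⊗[ℤ] Λ) →ₐ[ℚ] AlgebraicClosure ℚ ⊗[ℚ] (ℚ ⊗[ℤ] Λ)).toRingHom.comp
      (Algebra.TensorProduct.includeRight : Λ →ₐ[ℤ] ℚ ⊗[ℤ] Λ).toRingHom),
    (Algebra.TensorProduct.basis (AlgebraicClosure ℚ) E).map ε.toLinearEquiv, fun i => ?_⟩
  rw [Module.Basis.map_apply, Algebra.TensorProduct.basis_apply, hE]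
  rfl

omit [Ring Λ] [Algebra R Λ] in
/-- rational numbers which are integral over `ℤ[1/N]` belong to `ℤ[1/N]` -/
theorem exists_of_integral (hN : N ≠ 0) [IsLocalization.Away (N : ℤ) R]
    (κ : R →+* AlgebraicClosure ℚ) (q : ℚ)
    (hq : κ.IsIntegralElem (algebraMap ℚ (AlgebraicClosure ℚ) q)) :
    ∃ r : R, κ r = algebraMap ℚ (AlgebraicClosure ℚ) q := by
  let _ : Algebra R (AlgebraicClosure ℚ) := κ.toAlgebra
  have hst : IsScalarTower ℤ R (AlgebraicClosure ℚ) :=
    IsScalarTower.of_algebraMap_eq' (RingHom.ext_int _ _)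
  obtain ⟨⟨_, k, rfl⟩, hm⟩ := IsIntegral.exists_multiple_integral_of_isLocalization
    (Submonoid.powers (N : ℤ)) (algebraMap ℚ (AlgebraicClosure ℚ) q) hq
  have h1 : ((⟨(N : ℤ) ^ k, k, rfl⟩ : Submonoid.powers (N : ℤ)) •
      (algebraMap ℚ (AlgebraicClosure ℚ) q)) =
      algebraMap ℚ (AlgebraicClosure ℚ) ((N : ℚ) ^ k * q) := by
    rw [Submonoid.smul_def, zsmul_eq_mul, map_mul, map_pow, map_natCast]
    push_cast
    rfl
  rw [h1] at hm
  have h2 : IsIntegral ℤ ((N : ℚ) ^ k * q) :=
    (isIntegral_algebraMap_iff (algebraMap ℚ (AlgebraicClosure ℚ)).injective).1 hm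
  obtain ⟨z, hz⟩ := IsIntegrallyClosed.isIntegral_iff.1 h2
  refine ⟨IsLocalization.mk' R z (⟨(N : ℤ) ^ k, k, rfl⟩ : Submonoid.powers (N : ℤ)), ?_⟩
  have h3 := IsLocalization.mk'_spec R z (⟨(N : ℤ) ^ k, k, rfl⟩ : Submonoid.powers (N : ℤ))
  have h4 := congrArg κ h3
  rw [map_mul] at h4
  have h5 : κ (algebraMap ℤ R ((⟨(N : ℤ) ^ k, k, rfl⟩ : Submonoid.powers (N : ℤ)) : ℤ)) =
      ((N : AlgebraicClosure ℚ)) ^ k := by
    simp
  have h6 : κ (algebraMap ℤ R z) = ((N : AlgebraicClosure ℚ)) ^ k *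
      algebraMap ℚ (AlgebraicClosure ℚ) q := by
    have h7 := congrArg (algebraMap ℚ (AlgebraicClosure ℚ)) hz
    rw [map_mul, map_pow, map_natCast] at h7
    rw [← h7]
    simp
  rw [h5, h6, mul_comm] at h4
  have hN' : ((N : AlgebraicClosure ℚ)) ^ k ≠ 0 := pow_ne_zero _ (by exact_mod_cast hN)
  exact mul_left_cancel₀ hN' h4

omit [Ring Λ] [Algebra R Λ] in
/-- a monic polynomial whose `n`-th power has coefficients in `ℤ[1/N]` has coefficients in
`ℤ[1/N]` -/
theorem exists_descent (hN : N ≠ 0) [IsLocalization.Away (N : ℤ) R]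
    (κ : R →+* AlgebraicClosure ℚ) (G : (AlgebraicClosure ℚ)[X]) (hG : G.Monic) (P : R[X])
    (hP : P.Monic) {n : ℕ} (hn : n ≠ 0) (hGP : G ^ n = P.map κ) :
    ∃ g : R[X], g.map κ = G := by
  let _ : Algebra R (AlgebraicClosure ℚ) := κ.toAlgebra
  have hcl := isAlgClosure_rat
  have hnorm : Normal ℚ (AlgebraicClosure ℚ) := IsAlgClosure.normal ℚ (AlgebraicClosure ℚ)
  have hgal : IsGalois ℚ (AlgebraicClosure ℚ) := IsGalois.mk
  have h1 := integralClosure.mem_lifts_of_monic_of_dvd_map (AlgebraicClosure ℚ) hP hG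
    (show G ∣ P.map κ by rw [← hGP]; exact dvd_pow_self _ hn)
  rw [lifts_iff_coeff_lifts] at h1
  have h2 : ∀ i, ∃ r : R, κ r = G.coeff i := by
    intro i
    obtain ⟨⟨c, hc⟩, hc'⟩ := h1 i
    have hint : κ.IsIntegralElem (G.coeff i) := by
      rw [← hc']
      exact hc
    have hfix : ∀ σ : Gal((AlgebraicClosure ℚ)/ℚ), σ (G.coeff i) = G.coeff i := by
      intro σ
      have h3 : (G.map (σ : AlgebraicClosure ℚ →+* AlgebraicClosure ℚ)) ^ n = G ^ n := by
        rw [← Polynomial.map_pow, hGP, Polynomial.map_map]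
        congr 1
        exact hom_ext (N := N) _ _
      have h4 := monic_eq_of_pow_eq (hG.map _) hG hn h3
      have h5 := congrArg (fun Q => Q.coeff i) h4
      rw [Polynomial.coeff_map] at h5
      exact h5
    obtain ⟨q, hq⟩ := (InfiniteGalois.mem_range_algebraMap_iff_fixed (G.coeff i)).2 hfix
    rw [← hq] at hint ⊢
    exact exists_of_integral hN κ q hint
  have h3 : G ∈ lifts κ := (lifts_iff_coeff_lifts _).2 h2
  obtain ⟨g, hg⟩ := h3
  exact ⟨g, hg⟩

end split

/-! ### the reduced characteristic polynomial and the reduced norm -/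

section nrd

variable {d N : ℕ} {R Λ : Type} [CommRing R] [Ring Λ] [Algebra R Λ] {m : Type} [Fintype m]
  [DecidableEq m]

/-- the determinant of a splitting -/
noncomputable def spl {K : Type*} [CommRing K] (ψ : Λ →+* Matrix (Fin d) (Fin d) K) :
    Matrix m m Λ →+* Matrix (m × Fin d) (m × Fin d) K :=
  (Matrix.compRingEquiv m (Fin d) K).toRingHom.comp (RingHom.mapMatrix (m := m) ψ)

theorem spl_apply {K : Type*} [CommRing K] (ψ : Λ →+* Matrix (Fin d) (Fin d) K)
    (X : Matrix m m Λ) : spl ψ X = Matrix.compRingEquiv m (Fin d) K (X.map ψ) := rfl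

theorem charpoly_spl {S K : Type*} [CommRing S] [Algebra S Λ] [CommRing K] [Nontrivial S]
    [Nontrivial K] [Module.Free S Λ] [Module.Finite S Λ] (κ : S →+* K)
    (ψ : Λ →+* Matrix (Fin d) (Fin d) K) (b : Module.Basis (Fin (d ^ 2)) S Λ)
    (b' : Module.Basis (Fin (d ^ 2)) K (Matrix (Fin d) (Fin d) K)) (hb : ∀ i, b' i = ψ (b i))
    (hs : ∀ r x, ψ (r • x) = κ r • ψ x) (X : Matrix m m Λ) :
    (lmul S X).charpoly.map κ = (spl ψ X).charpoly ^ d := by
  rw [charpoly_lmul_map κ ψ b b' hb hs, charpoly_lmul_matrix, spl_apply]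

/-- every ring homomorphism to `M_d(𝔽_p)` is surjective -/
theorem surjective_of (h : IsAzumaya d N R Λ) (hd : d ≠ 0) {p : ℕ} (hp : p.Prime) (hpN : ¬ p ∣ N)
    (ρ : Λ →+* Matrix (Fin d) (Fin d) (ZMod p)) : Function.Surjective ρ := by
  have : Fact p.Prime := ⟨hp⟩
  have : NeZero d := ⟨hd⟩
  obtain ⟨ρ₀, h0, hker⟩ := h.fibre p hp hpN
  have h1 : ∀ x, ρ₀ x = 0 → ρ x = 0 := by
    intro x hx
    obtain ⟨y, rfl⟩ := hker x hx
    rw [map_mul, map_natCast]
    have h2 : ((p : ℕ) : Matrix (Fin d) (Fin d) (ZMod p)) = 0 := by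
      have h3 : ((p : ℕ) : Matrix (Fin d) (Fin d) (ZMod p)) =
          algebraMap (ZMod p) (Matrix (Fin d) (Fin d) (ZMod p)) (p : ZMod p) := by
        rw [map_natCast]
      rw [h3, ZMod.natCast_self, map_zero]
    rw [h2, zero_mul]
  let f : Matrix (Fin d) (Fin d) (ZMod p) →+* Matrix (Fin d) (Fin d) (ZMod p) :=
    ρ₀.liftOfSurjective h0 ⟨ρ, fun x hx => h1 x hx⟩
  have hf : ∀ x, f (ρ₀ x) = ρ x := fun x => ρ₀.liftOfRightInverse_comp_apply _ _ _ x
  have hinj : Function.Injective f := f.injective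
  have hsurj := (Finite.injective_iff_surjective (f := f)).1 hinj
  intro y
  obtain ⟨z, rfl⟩ := hsurj y
  obtain ⟨x, rfl⟩ := h0 z
  exact ⟨x, (hf x).symm⟩

/-- **the reduced characteristic polynomial** of a matrix over an Azumaya algebra -/
theorem exists_redchar (hN : N ≠ 0) (hd : d ≠ 0) [IsLocalization.Away (N : ℤ) R]
    (h : IsAzumaya d N R Λ) :
    ∃ (κ : R →+* AlgebraicClosure ℚ) (ψ : Λ →+* Matrix (Fin d) (Fin d) (AlgebraicClosure ℚ)),
      Function.Injective κ ∧ ∀ X : Matrix m m Λ, ∃ g : R[X], g.Monic ∧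
        g.map κ = (spl ψ X).charpoly ∧ (spl ψ X).det ^ d = κ (rdet R X) ∧
        ∀ (p : ℕ) (hp : p.Prime) (hpN : ¬ p ∣ N) (ρ : Λ →+* Matrix (Fin d) (Fin d) (ZMod p)),
          g.map (Loc.phi N R hp hpN) = (spl ρ X).charpoly := by
  have hD := Loc.isDomain N R hN
  have hC := Loc.charZero N R hN
  obtain ⟨b⟩ := exists_basis hN hd h
  have hfree := h.free
  have hfin : Module.Finite R Λ := Module.Finite.of_basis b
  obtain ⟨ψ, b', hb⟩ := exists_splitting hN hd h b
  let κ : R →+* AlgebraicClosure ℚ := (algebraMap ℚ (AlgebraicClosure ℚ)).comp (toQ hN R)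
  have hκ : Function.Injective κ := (algebraMap ℚ (AlgebraicClosure ℚ)).injective.comp
    (toQ_injective hN)
  refine ⟨κ, ψ, hκ, fun X => ?_⟩
  have h1 := charpoly_spl κ ψ b b' hb (map_smul_of N κ ψ) X
  have h1' : (spl ψ X).det ^ d = κ (rdet R X) := by
    unfold rdet
    rw [LinearMap.det_eq_sign_charpoly_coeff, map_mul, map_pow, map_neg, map_one,
      ← Polynomial.coeff_map, h1, Polynomial.coeff_zero_eq_eval_zero, Polynomial.eval_pow,
      ← Polynomial.coeff_zero_eq_eval_zero, Matrix.det_eq_sign_charpoly_coeff, mul_pow,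
      Module.finrank_pi_fintype, Finset.sum_const, Finset.card_univ, h.rank, Fintype.card_prod,
      Fintype.card_fin, ← pow_mul, smul_eq_mul]
    congr 2
    ring
  obtain ⟨g, hg⟩ := exists_descent hN κ (spl ψ X).charpoly (Matrix.charpoly_monic _)
    (lmul R X).charpoly (LinearMap.charpoly_monic _) hd h1.symm
  have hgm : g.Monic := by
    refine Polynomial.monic_of_injective hκ ?_
    rw [hg]
    exact Matrix.charpoly_monic _
  have hgd : g ^ d = (lmul R X).charpoly := by
    apply Polynomial.map_injective κ hκ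
    rw [Polynomial.map_pow, hg, h1]
  refine ⟨g, hgm, hg, h1', fun p hp hpN ρ => ?_⟩
  have : Fact p.Prime := ⟨hp⟩
  have hρ := surjective_of h hd hp hpN ρ
  have h2 := charpoly_spl (Loc.phi N R hp hpN) ρ b (eb hp hpN ρ b hρ (by simp))
    (eb_apply hp hpN ρ b hρ (by simp)) (map_smul_of N _ ρ) X
  rw [← hgd, Polynomial.map_pow] at h2
  exact monic_eq_of_pow_eq (hgm.map _) (Matrix.charpoly_monic _) hd h2

/-- **the reduced norm** of an Azumaya algebra -/
theorem exists_nrd (hN : N ≠ 0) (hd : d ≠ 0) [IsLocalization.Away (N : ℤ) R]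
    (h : IsAzumaya d N R Λ) (m : Type) [Fintype m] [DecidableEq m] :
    ∃ n : Matrix m m Λ →* R, (∀ X, n X ^ d = rdet R X) ∧
      (∀ r : R, n (Matrix.diagonal fun _ => algebraMap R Λ r) = r ^ (Fintype.card m * d)) ∧
      ∀ (p : ℕ) (hp : p.Prime) (hpN : ¬ p ∣ N) (ρ : Λ →+* Matrix (Fin d) (Fin d) (ZMod p))
        (X : Matrix m m Λ), nrdAt ρ X = Loc.phi N R hp hpN (n X) := by
  obtain ⟨κ, ψ, hκ, hex⟩ := exists_redchar (m := m) hN hd h
  choose g hgm hg hdd hgp using hex
  have hdet : ∀ X : Matrix m m Λ, κ ((-1) ^ (Fintype.card m * d) * (g X).coeff 0) = (spl ψ X).det := by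
    intro X
    rw [Matrix.det_eq_sign_charpoly_coeff, ← hg, Polynomial.coeff_map, map_mul, map_pow, map_neg,
      map_one, Fintype.card_prod, Fintype.card_fin]
  let n : Matrix m m Λ →* R :=
    { toFun := fun X => (-1) ^ (Fintype.card m * d) * (g X).coeff 0
      map_one' := by
        apply hκ
        rw [hdet, map_one, map_one, Matrix.det_one]
      map_mul' := fun X Y => by
        apply hκ
        rw [hdet, map_mul, map_mul, hdet, hdet, Matrix.det_mul] }
  have hn : ∀ X, n X = (-1) ^ (Fintype.card m * d) * (g X).coeff 0 := fun _ => rfl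
  refine ⟨n, fun X => ?_, fun r => ?_, fun p hp hpN ρ X => ?_⟩
  · apply hκ
    rw [map_pow, hn, hdet, hdd]
  · apply hκ
    rw [hn, hdet, map_pow]
    have h1 : spl ψ (Matrix.diagonal fun _ : m => algebraMap R Λ r) =
        algebraMap (AlgebraicClosure ℚ) (Matrix (m × Fin d) (m × Fin d) (AlgebraicClosure ℚ))
          (κ r) := by
      have h2 : ((spl ψ).comp (Matrix.scalar m)).comp (algebraMap R Λ) =
          (algebraMap (AlgebraicClosure ℚ)
            (Matrix (m × Fin d) (m × Fin d) (AlgebraicClosure ℚ))).comp κ := hom_ext (N := N) _ _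
      exact RingHom.congr_fun h2 r
    rw [h1, Matrix.algebraMap_eq_diagonal, Matrix.det_diagonal, Pi.algebraMap_def]
    simp [Finset.prod_const, Finset.card_univ, Fintype.card_prod]
  · have : Fact p.Prime := ⟨hp⟩
    have h1 : nrdAt ρ X = (spl ρ X).det := rfl
    rw [h1, Matrix.det_eq_sign_charpoly_coeff, ← hgp X p hp hpN ρ, Polynomial.coeff_map, hn,
      map_mul, map_pow, map_neg, map_one, Fintype.card_prod, Fintype.card_fin]

end nrd

end Nrd
end BWG
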